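import Pool.Agent.helper67.TPE.Spec

set_option autoImplicit false

open Finset PowerSeries

noncomputable section

namespace Pool.Agent.TPE

open Finset Pool.Agent.EP Pool.Agent.PQ

theorem RBT_pow7 (i : ℕ) (hi : i % 2 = 1) : 7 ^ i % 24 = 7 := by
  obtain ⟨t, rfl⟩ : ∃ t, i = 2 * t + 1 := ⟨i / 2, by omega⟩
  rw [pow_succ, pow_mul, Nat.mul_mod, Nat.pow_mod]
  norm_num

theorem RBT_prod (s : Finset ℕ) (hs : ∀ q ∈ s, q.Prime ∧ q % 24 = 7) (hi : #s % 2 = 1) :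
    (∏ q ∈ s, q) % 24 = 7 := by
  have h1 : (∏ q ∈ s, q) ≡ ∏ _q ∈ s, 7 [MOD 24] := by
    refine Nat.ModEq.prod fun q hq => ?_
    have := (hs q hq).2
    show q % 24 = 7 % 24
    omega
  rw [Finset.prod_const] at h1
  have h2 : (∏ q ∈ s, q) % 24 = 7 ^ #s % 24 := h1
  rw [h2]
  exact RBT_pow7 _ hi

theorem RBT_two (κ : ℕ) (hκ : 1 ≤ κ) : 2 ^ (2 * κ + 1) = 2 * 4 ^ κ ∧ 2 ^ (2 * κ + 1) % 24 = 8 := by
  have h1 : 2 ^ (2 * κ + 1) = 2 * 4 ^ κ := by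
    rw [pow_succ, pow_mul]
    ring
  refine ⟨h1, ?_⟩
  rw [h1]
  obtain ⟨t, rfl⟩ : ∃ t, κ = t + 1 := ⟨κ - 1, by omega⟩
  induction t with
  | zero => norm_num
  | succ t ih =>
    have h2 := ih (by omega) (by rw [pow_succ, pow_mul]; ring)
    rw [pow_succ]
    omega

theorem RBT_cop {x : ℕ} (h : x % 24 = 7 ∨ x % 24 = 1) : x.Coprime 6 := by
  have h6 : (6 : ℕ) = 2 * 3 := rfl
  rw [h6]
  refine Nat.Coprime.mul_right ?_ ?_
  · rw [Nat.coprime_comm, Nat.Prime.coprime_iff_not_dvd Nat.prime_two]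
    omega
  · rw [Nat.coprime_comm, Nat.Prime.coprime_iff_not_dvd Nat.prime_three]
    omega

theorem RBT_key (hSGP : SGP_stmt) (hVCL : VCL_stmt) (hLQG : LQG_stmt) (κ i j : ℕ) (s s' : Finset ℕ)
    (hκ : 1 ≤ κ) (hs : ∀ q ∈ s, q.Prime ∧ q % 24 = 7) (hs' : ∀ q ∈ s', q.Prime ∧ q % 24 = 7)
    (hi : #s = i) (hi2 : i % 2 = 1) (hj : #s' + j + 1 = 2 ^ κ) (x : ℕ)
    (hx : x ∈ Ico 1 (2 ^ (2 * κ + 1)))
    (hne : (vvx ^ x).coeff ((∏ q ∈ s, q : ℕ) : ℤ) *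
      (vvx ^ (2 ^ (2 * κ + 1) - x)).coeff ((∏ q ∈ s', q : ℕ) : ℤ) ≠ 0) :
    i ≤ j ∧ (i = j → x = dl i) := by
  obtain ⟨hmono, hadd, hthree⟩ := hSGP
  obtain ⟨hB1, hB2⟩ := RBT_two κ hκ
  rw [mem_Ico] at hx
  have hl : (vvx ^ x).coeff ((∏ q ∈ s, q : ℕ) : ℤ) ≠ 0 := left_ne_zero_of_mul hne
  have hr : (vvx ^ (2 ^ (2 * κ + 1) - x)).coeff ((∏ q ∈ s', q : ℕ) : ℤ) ≠ 0 :=
    right_ne_zero_of_mul hne
  have hk : (∏ q ∈ s, q) % 24 = 7 := RBT_prod s hs (by rw [hi]; exact hi2)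
  have hv := (hVCL x ((∏ q ∈ s, q : ℕ) : ℤ) hl).1
  have hx7 : x % 24 = 7 := by omega
  have hx6 : x.Coprime 6 := RBT_cop (Or.inl hx7)
  have hy6 : (2 ^ (2 * κ + 1) - x).Coprime 6 := RBT_cop (Or.inr (by omega))
  have h1 : dl i ≤ x := by
    by_contra hlt
    push Not at hlt
    rw [← hi] at hlt
    exact hl ((hLQG s hs).1 x hlt hx6)
  have h2 : dl #s' ≤ 2 ^ (2 * κ + 1) - x := by
    by_contra hlt
    push Not at hlt
    exact hr ((hLQG s' hs').1 _ hlt hy6)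
  have hc : #s' = 2 ^ κ - 1 - j := by omega
  have h3 := hadd κ j (by omega)
  have h4 := hthree κ
  rw [hc] at h2
  unfold dl at h1 h2
  rw [hB1] at h2 hx
  have h5 : sg i ≤ sg j := by omega
  constructor
  · by_contra hlt
    push Not at hlt
    have := hmono j i hlt
    omega
  · intro hij
    subst hij
    unfold dl
    omega

theorem RBT (hSGP : SGP_stmt) (hVCL : VCL_stmt) : RBT_stmt := by
  intro hLQG κ i j s s' hκ hs hs' hi hi2 hj hik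
  have key := RBT_key hSGP hVCL hLQG κ i j s s' hκ hs hs' hi hi2 hj
  constructor
  · intro hij
    unfold RB
    obtain ⟨hmono, hadd, hthree⟩ := hSGP
    obtain ⟨hB1, hB2⟩ := RBT_two κ hκ
    have hc : #s' = 2 ^ κ - 1 - j := by omega
    have h3 := hadd κ j (by omega)
    have h4 := hthree κ
    have hsum : dl i + dl #s' = 2 ^ (2 * κ + 1) := by
      rw [hc, hij, hB1]
      unfold dl
      omega
    have hd1 : 1 ≤ dl #s' := by unfold dl; omega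
    have hd2 : 1 ≤ dl i := by unfold dl; omega
    rw [Finset.sum_eq_single (dl i)]
    · have e1 : 2 ^ (2 * κ + 1) - dl i = dl #s' := by omega
      rw [e1, (hLQG s' hs').2]
      rw [← hi, (hLQG s hs).2, mul_one]
    · intro x hx hxne
      by_contra hne
      exact hxne ((key x hx hne).2 hij)
    · intro hnot
      exact absurd (mem_Ico.2 ⟨hd2, by omega⟩) hnot
  · intro hji
    unfold RB
    refine Finset.sum_eq_zero fun x hx => ?_
    by_contra hne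
    have := (key x hx hne).1
    omega

end Pool.Agent.TPE
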